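import Pool.Agent.Helper35.PQF.St

set_option autoImplicit false

/-!
# Project PQF: module RA1 (half plane Harnack inequality and four points)
-/

open Filter Topology Matrix Set MeasureTheory
open scoped ENNReal ComplexOrder

namespace Pool.Agent.Helper3.PM

open Pool.Agent.Helper35.PM

lemma exp_mem_ball {w : ℂ} (h : w.re < 0) : Complex.exp w ∈ Metric.ball (0 : ℂ) 1 := by
  rw [mem_ball_zero_iff, Complex.norm_exp]
  have := Real.exp_lt_exp.2 h
  rwa [Real.exp_zero] at this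

lemma pt_mem_ball {x : ℝ} (θ : ℝ) (hx : x < 0) : pt x θ ∈ Metric.ball (0 : ℂ) 1 := by
  unfold pt
  apply exp_mem_ball
  simpa using hx

lemma j_ge {u : ℂ → ℝ} {j : ℂ → ℂ → ℝ} (h : Pot u j) {p z : ℂ}
    (hp : p ∈ Metric.ball (0 : ℂ) 1) (hz : z ∈ Metric.ball (0 : ℂ) 1) : 1 ≤ j p z := by
  obtain ⟨h1, h2⟩ := h
  obtain ⟨G, -, hG, -⟩ := h2 p hp
  obtain ⟨e1, e2⟩ := hG z hz
  have e3 := h1 z hz
  rw [e1] at e2
  by_contra hlt
  push Not at hlt
  nlinarith

theorem ra1 (hk : St_HK) : St_RA1 := by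
  intro u j hP
  have hP' := hP
  obtain ⟨h1, h2⟩ := hP
  refine ⟨?_, ?_, ?_⟩
  · intro x x' θ hx hx'
    obtain ⟨G, hGd, hG, hGp⟩ := h2 (pt x θ) (pt_mem_ball θ hx)
    -- the conformal map onto the half plane
    have hden : ∀ ξ ∈ Metric.ball (0 : ℂ) 1, (1 + ξ) ≠ 0 := by
      intro ξ hξ h0
      rw [mem_ball_zero_iff] at hξ
      have : ξ = -1 := by linear_combination h0
      rw [this, norm_neg, norm_one] at hξ
      exact lt_irrefl _ hξ
    have hre : ∀ ξ ∈ Metric.ball (0 : ℂ) 1, 0 < ((1 - ξ) / (1 + ξ)).re := by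
      intro ξ hξ
      have hd := hden ξ hξ
      rw [mem_ball_zero_iff] at hξ
      have hn : Complex.normSq ξ < 1 := by
        rw [Complex.normSq_eq_norm_sq]
        nlinarith [norm_nonneg ξ]
      have hpos : 0 < Complex.normSq (1 + ξ) := Complex.normSq_pos.2 hd
      rw [Complex.div_re]
      rw [← add_div]
      apply div_pos _ hpos
      rw [Complex.normSq_apply] at hn
      simp only [Complex.sub_re, Complex.one_re, Complex.add_re, Complex.sub_im, Complex.one_im,
        Complex.add_im]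
      nlinarith
    set K : ℂ → ℂ := fun ξ =>
      G (Complex.exp ((x : ℂ) * ((1 - ξ) / (1 + ξ)) + (θ : ℂ) * Complex.I)) - 1 / 2 with hK
    have hball : ∀ ξ ∈ Metric.ball (0 : ℂ) 1,
        Complex.exp ((x : ℂ) * ((1 - ξ) / (1 + ξ)) + (θ : ℂ) * Complex.I) ∈
          Metric.ball (0 : ℂ) 1 := by
      intro ξ hξ
      apply exp_mem_ball
      have h3 := hre ξ hξ
      have h4 : ((x : ℂ) * ((1 - ξ) / (1 + ξ)) + (θ : ℂ) * Complex.I).re
          = x * ((1 - ξ) / (1 + ξ)).re := by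
        rw [Complex.add_re, Complex.re_ofReal_mul, Complex.re_ofReal_mul, Complex.I_re, mul_zero,
          add_zero]
      rw [h4]
      exact mul_neg_of_neg_of_pos hx h3
    have hKd : DifferentiableOn ℂ K (Metric.ball 0 1) := by
      have hin : DifferentiableOn ℂ (fun ξ : ℂ =>
          Complex.exp ((x : ℂ) * ((1 - ξ) / (1 + ξ)) + (θ : ℂ) * Complex.I))
          (Metric.ball 0 1) := by
        apply DifferentiableOn.cexp
        refine DifferentiableOn.add_const _ ?_
        refine DifferentiableOn.const_mul ?_ _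
        refine DifferentiableOn.div ?_ ?_ hden
        · exact (differentiableOn_const _).sub differentiableOn_id
        · exact (differentiableOn_const _).add differentiableOn_id
      exact (hGd.comp hin hball).sub_const _
    have hhalf : ((1 : ℂ) / 2).re = 1 / 2 := by norm_num
    have hKre : ∀ ξ ∈ Metric.ball (0 : ℂ) 1, 0 ≤ (K ξ).re := by
      intro ξ hξ
      have h5 := hball ξ hξ
      have h6 := (hG _ h5).2
      have h7 := h1 _ h5
      simp only [hK]
      rw [Complex.sub_re, hhalf]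
      linarith
    have hxx : x + x' < 0 := by linarith
    set ξ₀ : ℝ := (x - x') / (x + x') with hξ₀
    have hne : x + x' ≠ 0 := hxx.ne
    have hx0 : x ≠ 0 := hx.ne
    have hx'0 : x' ≠ 0 := hx'.ne
    have e1 : 1 - ξ₀ = 2 * x' / (x + x') := by
      rw [hξ₀, eq_div_iff hne, sub_mul, div_mul_cancel₀ _ hne]
      ring
    have e2 : 1 + ξ₀ = 2 * x / (x + x') := by
      rw [hξ₀, eq_div_iff hne, add_mul, div_mul_cancel₀ _ hne]
      ring
    have hξabs : |ξ₀| < 1 := by
      rw [abs_lt]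
      constructor
      · rw [hξ₀, lt_div_iff_of_neg hxx]
        linarith
      · rw [hξ₀, div_lt_iff_of_neg hxx]
        linarith
    have hξmem : ((ξ₀ : ℝ) : ℂ) ∈ Metric.ball (0 : ℂ) 1 := by
      rw [mem_ball_zero_iff, Complex.norm_real, Real.norm_eq_abs]
      exact hξabs
    have hH := (hk K hKd hKre _ hξmem).1
    have hm : (x : ℂ) * ((1 - ((ξ₀ : ℝ) : ℂ)) / (1 + ((ξ₀ : ℝ) : ℂ))) = ((x' : ℝ) : ℂ) := by
      have hr : x * ((1 - ξ₀) / (1 + ξ₀)) = x' := by
        rw [e1, e2]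
        field_simp
      exact_mod_cast hr
    have hKξ : (K ((ξ₀ : ℝ) : ℂ)).re = (G (pt x' θ)).re - 1 / 2 := by
      simp only [hK]
      rw [Complex.sub_re, hhalf, hm]
      rfl
    have hK0 : (K 0).re = u (pt x θ) - 1 / 2 := by
      simp only [hK]
      rw [Complex.sub_re, hhalf]
      have e3 : (x : ℂ) * ((1 - 0) / (1 + 0)) = (x : ℂ) := by norm_num
      rw [e3]
      change (G (pt x θ)).re - 1 / 2 = _
      rw [hGp]
    have hW0 : 0 ≤ u (pt x θ) - 1 / 2 := by
      have := h1 _ (pt_mem_ball θ hx)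
      linarith
    rw [hKξ, hK0, Complex.norm_real, Real.norm_eq_abs] at hH
    have hle : u (pt x' θ) ≤ (G (pt x' θ)).re := (hG _ (pt_mem_ball θ hx')).2
    have hfac : (1 + |ξ₀|) / (1 - |ξ₀|) ≤ max (x / x') (x' / x) := by
      rcases le_total 0 ξ₀ with h0 | h0
      · rw [abs_of_nonneg h0]
        refine le_trans (le_of_eq ?_) (le_max_left _ _)
        rw [e1, e2]
        field_simp
      · rw [abs_of_nonpos h0]
        refine le_trans (le_of_eq ?_) (le_max_right _ _)
        rw [sub_neg_eq_add, ← sub_eq_add_neg, e1, e2]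
        field_simp
    calc u (pt x' θ) - 1 / 2 ≤ (G (pt x' θ)).re - 1 / 2 := by linarith
      _ ≤ (1 + |ξ₀|) / (1 - |ξ₀|) * (u (pt x θ) - 1 / 2) := hH
      _ ≤ max (x / x') (x' / x) * (u (pt x θ) - 1 / 2) :=
        mul_le_mul_of_nonneg_right hfac hW0
  · intro x θ δ hx hδ hδx
    obtain ⟨G, hGd, hG, hGp⟩ := h2 (pt x θ) (pt_mem_ball θ hx)
    set F : ℂ → ℂ := fun ζ =>
      G (Complex.exp ((x : ℂ) + (θ : ℂ) * Complex.I + ((-x : ℝ) : ℂ) * ζ)) - 1 / 2 with hF
    have hball : ∀ ζ ∈ Metric.ball (0 : ℂ) 1,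
        Complex.exp ((x : ℂ) + (θ : ℂ) * Complex.I + ((-x : ℝ) : ℂ) * ζ) ∈
          Metric.ball (0 : ℂ) 1 := by
      intro ζ hζ
      apply exp_mem_ball
      rw [mem_ball_zero_iff] at hζ
      have h3 : ζ.re < 1 := lt_of_le_of_lt (Complex.re_le_norm ζ) hζ
      have h4 : ((x : ℂ) + (θ : ℂ) * Complex.I + ((-x : ℝ) : ℂ) * ζ).re = x + (-x) * ζ.re := by
        rw [Complex.add_re, Complex.add_re, Complex.re_ofReal_mul, Complex.re_ofReal_mul,
          Complex.I_re, mul_zero, add_zero, Complex.ofReal_re]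
      rw [h4]
      nlinarith
    have hFd : DifferentiableOn ℂ F (Metric.ball 0 1) := by
      have hin : DifferentiableOn ℂ (fun ζ : ℂ =>
          Complex.exp ((x : ℂ) + (θ : ℂ) * Complex.I + ((-x : ℝ) : ℂ) * ζ))
          (Metric.ball 0 1) := by
        apply DifferentiableOn.cexp
        refine DifferentiableOn.const_add _ ?_
        exact DifferentiableOn.const_mul differentiableOn_id _
      exact (hGd.comp hin hball).sub_const _
    have hhalf : ((1 : ℂ) / 2).re = 1 / 2 := by norm_num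
    have hFre : ∀ ζ ∈ Metric.ball (0 : ℂ) 1, 0 ≤ (F ζ).re := by
      intro ζ hζ
      have h5 := hball ζ hζ
      have h6 := (hG _ h5).2
      have h7 := h1 _ h5
      simp only [hF]
      rw [Complex.sub_re, hhalf]
      linarith
    have hnx : 0 < -x := by linarith
    set τ : ℝ := δ / (-x) with hτ
    have hτ0 : 0 < τ := div_pos hδ hnx
    have hτ1 : τ < 1 := by
      rw [hτ, div_lt_one hnx]
      exact hδx
    have hxτ : (-x) * τ = δ := by
      rw [hτ, mul_comm, div_mul_cancel₀ _ hnx.ne']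
    have hxτC : ((-x : ℝ) : ℂ) * ((τ : ℝ) : ℂ) = ((δ : ℝ) : ℂ) := by
      exact_mod_cast hxτ
    have hτmem : ((τ : ℝ) : ℂ) ∈ Metric.ball (0 : ℂ) 1 := by
      rw [mem_ball_zero_iff, Complex.norm_real, Real.norm_eq_abs, abs_of_pos hτ0]
      exact hτ1
    have hH := (hk F hFd hFre _ hτmem).2.2
    rw [Complex.norm_real, Real.norm_eq_abs, abs_of_pos hτ0] at hH
    have f1 : (F ((τ : ℝ) : ℂ)).re = (G (pt (x + δ) θ)).re - 1 / 2 := by
      simp only [hF]
      rw [Complex.sub_re, hhalf, hxτC]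
      have : (x : ℂ) + (θ : ℂ) * Complex.I + ((δ : ℝ) : ℂ) =
          ((x + δ : ℝ) : ℂ) + (θ : ℂ) * Complex.I := by
        push_cast
        ring
      rw [this]
      rfl
    have f2 : (F (-((τ : ℝ) : ℂ))).re = (G (pt (x - δ) θ)).re - 1 / 2 := by
      simp only [hF]
      rw [Complex.sub_re, hhalf, mul_neg, hxτC]
      have : (x : ℂ) + (θ : ℂ) * Complex.I + -((δ : ℝ) : ℂ) =
          ((x - δ : ℝ) : ℂ) + (θ : ℂ) * Complex.I := by
        push_cast
        ring
      rw [this]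
      rfl
    have f3 : (F (Complex.I * ((τ : ℝ) : ℂ))).re = (G (pt x (θ + δ))).re - 1 / 2 := by
      simp only [hF]
      rw [Complex.sub_re, hhalf]
      have : (x : ℂ) + (θ : ℂ) * Complex.I + ((-x : ℝ) : ℂ) * (Complex.I * ((τ : ℝ) : ℂ)) =
          (x : ℂ) + ((θ + δ : ℝ) : ℂ) * Complex.I := by
        rw [show ((-x : ℝ) : ℂ) * (Complex.I * ((τ : ℝ) : ℂ)) =
          (((-x : ℝ) : ℂ) * ((τ : ℝ) : ℂ)) * Complex.I by ring, hxτC]
        push_cast
        ring
      rw [this]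
      rfl
    have f4 : (F (-(Complex.I * ((τ : ℝ) : ℂ)))).re = (G (pt x (θ - δ))).re - 1 / 2 := by
      simp only [hF]
      rw [Complex.sub_re, hhalf]
      have : (x : ℂ) + (θ : ℂ) * Complex.I + ((-x : ℝ) : ℂ) * (-(Complex.I * ((τ : ℝ) : ℂ))) =
          (x : ℂ) + ((θ - δ : ℝ) : ℂ) * Complex.I := by
        rw [show ((-x : ℝ) : ℂ) * (-(Complex.I * ((τ : ℝ) : ℂ))) =
          -((((-x : ℝ) : ℂ) * ((τ : ℝ) : ℂ)) * Complex.I) by ring, hxτC]
        push_cast
        ring
      rw [this]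
      rfl
    have f0 : (F 0).re = u (pt x θ) - 1 / 2 := by
      simp only [hF]
      rw [Complex.sub_re, hhalf, mul_zero, add_zero]
      change (G (pt x θ)).re - 1 / 2 = _
      rw [hGp]
    rw [f1, f2, f3, f4, f0] at hH
    have hxp : x + δ < 0 := by linarith
    have hxm : x - δ < 0 := by linarith
    have mp := pt_mem_ball θ hxp
    have mm := pt_mem_ball θ hxm
    have g1 := (hG _ mp).1
    have g2 := (hG _ mm).1
    have g3 := (hG _ (pt_mem_ball (θ + δ) hx)).2
    have g4 := (hG _ (pt_mem_ball (θ - δ) hx)).2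
    have j1 := j_ge hP' (pt_mem_ball θ hx) mp
    have j2 := j_ge hP' (pt_mem_ball θ hx) mm
    have u1 := h1 _ mp
    have u2 := h1 _ mm
    rw [g1, g2] at hH
    have k1 : j (pt x θ) (pt (x + δ) θ) - 1 ≤
        2 * ((j (pt x θ) (pt (x + δ) θ) - 1) * u (pt (x + δ) θ)) := by nlinarith
    have k2 : j (pt x θ) (pt (x - δ) θ) - 1 ≤
        2 * ((j (pt x θ) (pt (x - δ) θ) - 1) * u (pt (x - δ) θ)) := by nlinarith
    linarith
  · intro x y θ hx hy
    exact j_ge hP' (pt_mem_ball θ hx) (pt_mem_ball θ hy)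

end Pool.Agent.Helper3.PM
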