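import Pool.Agent.Helper62.PM.St

/-!
# Project PM, module C: the quotients converge uniformly
-/

set_option autoImplicit false

open MeasureTheory Metric Set Filter Topology
open scoped RealInnerProductSpace ContDiff

namespace Pool.Agent.Helper3.PM

open Pool.Agent.Helper62.PM
open Pool.Agent.Helper62.Mink

private theorem rp_smooth {n : ℕ} (e v : E n) :
    ContDiff ℝ ∞ (fun q : ℝ × E n => rp e v q.1 q.2) := by
  unfold rp
  have h1 : ContDiff ℝ ∞ (fun q : ℝ × E n => (inner ℝ e q.2 : ℝ)) :=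
    contDiff_const.inner ℝ contDiff_snd
  have h2 : ContDiff ℝ ∞ (fun q : ℝ × E n => (inner ℝ v q.2 : ℝ)) :=
    contDiff_const.inner ℝ contDiff_snd
  have h3 : ContDiff ℝ ∞ (fun q : ℝ × E n => Real.cos q.1) := Real.contDiff_cos.comp contDiff_fst
  have h4 : ContDiff ℝ ∞ (fun q : ℝ × E n => Real.sin q.1) := Real.contDiff_sin.comp contDiff_fst
  exact (contDiff_snd.add ((((h3.sub contDiff_const).mul h1).sub (h4.mul h2)).smul
    contDiff_const)).add (((h4.mul h1).add ((h3.sub contDiff_const).mul h2)).smul contDiff_const)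

private theorem rp_zero_vec {n : ℕ} (e v : E n) (t : ℝ) : rp e v t 0 = 0 := by
  simp [rp]

private theorem rp_ne (hA : StA) {n : ℕ} {e v : E n} (h : ON (e, v)) (t : ℝ) {x : E n}
    (hx : x ≠ 0) : rp e v t x ≠ 0 := by
  intro h0
  apply hx
  have h1 := (hA n e v h).2.1 (-t) t x
  rw [h0, rp_zero_vec, neg_add_cancel, (hA n e v h).2.2.1] at h1
  exact h1.symm

/-- The open set. -/
private def Om (n : ℕ) : Set (ℝ × (E n × E n)) := {q | q.2.1 ≠ 0}

private theorem Om_open (n : ℕ) : IsOpen (Om n) :=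
  isOpen_ne_fun (continuous_fst.comp continuous_snd) continuous_const

/-- The function on the moved pairs. -/
private noncomputable def Gam {n : ℕ} (e v : E n) (G : E n × E n → ℝ) (q : ℝ × (E n × E n)) : ℝ :=
  G (rp e v q.1 q.2.1, rp e v q.1 q.2.2)

/-- Time derivative. -/
private noncomputable def dt {n : ℕ} (H : ℝ × (E n × E n) → ℝ) (q : ℝ × (E n × E n)) : ℝ :=
  fderiv ℝ H q (1, 0)

private theorem Gam_smooth (hA : StA) {n : ℕ} {e v : E n} (h : ON (e, v)) {G : E n × E n → ℝ}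
    (hG : ContDiffOn ℝ ∞ G {p | p.1 ≠ 0}) : ContDiffOn ℝ ∞ (Gam e v G) (Om n) := by
  have h1 : ContDiff ℝ ∞ (fun q : ℝ × (E n × E n) => (rp e v q.1 q.2.1, rp e v q.1 q.2.2)) := by
    have h2 : ContDiff ℝ ∞ (fun q : ℝ × (E n × E n) => rp e v q.1 q.2.1) :=
      (rp_smooth e v).comp (contDiff_fst.prodMk (contDiff_fst.comp contDiff_snd))
    have h3 : ContDiff ℝ ∞ (fun q : ℝ × (E n × E n) => rp e v q.1 q.2.2) :=
      (rp_smooth e v).comp (contDiff_fst.prodMk (contDiff_snd.comp contDiff_snd))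
    exact h2.prodMk h3
  exact hG.comp h1.contDiffOn fun q hq => rp_ne hA h q.1 hq

private theorem dt_smooth {n : ℕ} {H : ℝ × (E n × E n) → ℝ} (hH : ContDiffOn ℝ ∞ H (Om n)) :
    ContDiffOn ℝ ∞ (dt H) (Om n) := by
  have h1 : ContDiffOn ℝ ∞ (fderiv ℝ H) (Om n) := hH.fderiv_of_isOpen (Om_open n) (by simp)
  exact h1.clm_apply contDiffOn_const

private theorem dt_hasDeriv {n : ℕ} {H : ℝ × (E n × E n) → ℝ} (hH : ContDiffOn ℝ ∞ H (Om n))
    (p : E n × E n) (hp : p.1 ≠ 0) (t : ℝ) : HasDerivAt (fun t => H (t, p)) (dt H (t, p)) t := by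
  have hq : ((t, p) : ℝ × (E n × E n)) ∈ Om n := hp
  have h1 : DifferentiableAt ℝ H (t, p) :=
    (hH.contDiffAt ((Om_open n).mem_nhds hq)).differentiableAt (by simp)
  have h2 : HasDerivAt (fun t : ℝ => ((t, p) : ℝ × (E n × E n))) (1, 0) t :=
    (hasDerivAt_id t).prodMk (hasDerivAt_const t p)
  exact h1.hasFDerivAt.comp_hasDerivAt t h2

private theorem unif (hA : StA) (hB : StB) {n : ℕ} {e v : E n} (h : ON (e, v))
    {G : E n × E n → ℝ} (hG : ContDiffOn ℝ ∞ G {p | p.1 ≠ 0}) (X : Type) [TopologicalSpace X]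
    [CompactSpace X] (j : X → E n × E n) (hj : Continuous j) (hj0 : ∀ x, (j x).1 ≠ 0) (ε : ℝ)
    (hε : 0 < ε) : ∃ δ : ℝ, 0 < δ ∧ ∀ s : ℝ, 0 < s → s < δ → ∀ x : X,
      |(Gam e v G (s, j x) + Gam e v G (-s, j x) - 2 * Real.cos s * G (j x)) / s ^ 2 -
        (dt (dt (Gam e v G)) (0, j x) + G (j x))| ≤ ε := by
  have s0 := Gam_smooth hA h hG
  have s1 := dt_smooth s0
  have s2 := dt_smooth s1
  have hz : ∀ p : E n × E n, Gam e v G (0, p) = G p := by
    intro p
    simp only [Gam]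
    rw [(hA n e v h).2.2.1, (hA n e v h).2.2.1]
  obtain ⟨δ, hδ, hδ2⟩ := hB X (fun t x => Gam e v G (t, j x)) (fun t x => dt (Gam e v G) (t, j x))
    (fun t x => dt (dt (Gam e v G)) (t, j x))
    (fun t x => dt_hasDeriv s0 (j x) (hj0 x) t) (fun t x => dt_hasDeriv s1 (j x) (hj0 x) t)
    (by
      refine s2.continuousOn.comp_continuous ?_ ?_
      · exact continuous_fst.prodMk (hj.comp continuous_snd)
      · intro q
        exact hj0 q.2)
    (by
      refine s0.continuousOn.comp_continuous ?_ ?_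
      · exact continuous_const.prodMk hj
      · intro x
        exact hj0 x) ε hε
  refine ⟨δ, hδ, fun s h1 h2 x => ?_⟩
  have h3 := hδ2 s h1 h2 x
  simp only [hz] at h3
  exact h3

private theorem ON_compact (n : ℕ) : IsCompact {p : E n × E n | ON p} := by
  have h1 : IsClosed {p : E n × E n | ON p} := by
    have e1 : {p : E n × E n | ON p} = {p | ‖p.1‖ = 1} ∩ ({p | ‖p.2‖ = 1} ∩
        {p | (inner ℝ p.1 p.2 : ℝ) = 0}) := rfl
    rw [e1]
    exact (isClosed_eq continuous_fst.norm continuous_const).inter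
      ((isClosed_eq continuous_snd.norm continuous_const).inter
        (isClosed_eq (continuous_fst.inner continuous_snd) continuous_const))
  have h2 : Bornology.IsBounded {p : E n × E n | ON p} := by
    refine (isBounded_closedBall (x := (0 : E n × E n)) (r := 1)).subset fun p hp => ?_
    rw [mem_closedBall_zero_iff, Prod.norm_def]
    exact max_le hp.1.le hp.2.1.le
  exact isCompact_of_isClosed_isBounded h1 h2

private theorem D2_smooth {n : ℕ} {φ : E n → ℝ} (hφ : S1 φ) :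
    ContDiffOn ℝ ∞ (fun p : E n × E n => D2 φ p.2 p.1) {p | p.1 ≠ 0} := by
  have h1 : ContDiffOn ℝ ∞ (fderiv ℝ φ) {0}ᶜ := hφ.smooth.fderiv_of_isOpen isOpen_compl_singleton (by simp)
  have h2 : ContDiffOn ℝ ∞ (fderiv ℝ (fderiv ℝ φ)) {0}ᶜ := h1.fderiv_of_isOpen isOpen_compl_singleton (by simp)
  have h3 : ContDiffOn ℝ ∞ (fun p : E n × E n => fderiv ℝ (fderiv ℝ φ) p.1) {p | p.1 ≠ 0} :=
    h2.comp contDiff_fst.contDiffOn fun p hp => hp
  have h4 : ContDiffOn ℝ ∞ (fun p : E n × E n => fderiv ℝ (fderiv ℝ φ) p.1 p.2 p.2)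
      {p | p.1 ≠ 0} := (h3.clm_apply contDiff_snd.contDiffOn).clm_apply contDiff_snd.contDiffOn
  exact h4.congr fun p hp => D2_eq_Bf hφ.smooth hp p.2

theorem hC : StA → StB → StC := by
  intro hA hB n e v φ h hφ
  have g1 : ContDiffOn ℝ ∞ (fun p : E n × E n => φ p.1) {p | p.1 ≠ 0} :=
    hφ.smooth.comp contDiff_fst.contDiffOn fun p hp => hp
  have g2 := D2_smooth hφ
  have s0 := Gam_smooth hA h g1
  have s1 := dt_smooth s0
  have s2 := dt_smooth s1
  have hL : ∀ x : E n, x ≠ 0 → Lop e v φ x =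
      dt (dt (Gam e v (fun p : E n × E n => φ p.1))) (0, (x, 0)) + φ x := by
    intro x hx
    have e1 : (deriv fun t => φ (rp e v t x)) =
        fun t => dt (Gam e v (fun p : E n × E n => φ p.1)) (t, (x, 0)) := by
      funext t
      exact (dt_hasDeriv s0 (x, 0) hx t).deriv
    rw [Lop, e1, (dt_hasDeriv s1 (x, 0) hx 0).deriv]
  refine ⟨?_, ?_, ?_⟩
  · intro ε hε
    have : CompactSpace (sphere (0 : E n) 1) := isCompact_iff_compactSpace.1 (isCompact_sphere _ _)
    obtain ⟨δ, hδ, hδ2⟩ := unif hA hB h g1 (sphere (0 : E n) 1) (fun x => ((x : E n), 0))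
      (continuous_subtype_val.prodMk continuous_const)
      (fun x => by
        have hx : ‖(x : E n)‖ = 1 := by simp
        exact norm_ne_zero_iff.1 (by rw [hx]; exact one_ne_zero)) ε hε
    refine ⟨δ, hδ, fun s h1 h2 x hx => ?_⟩
    have hx0 : x ≠ 0 := norm_ne_zero_iff.1 (by rw [hx]; exact one_ne_zero)
    have h3 := hδ2 s h1 h2 ⟨x, by simpa using hx⟩
    rw [hL x hx0]
    exact h3
  · refine ⟨fun p => dt (dt (Gam e v (fun p : E n × E n => D2 φ p.2 p.1))) (0, p) +
      D2 φ p.2 p.1, fun ε hε => ?_⟩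
    have : CompactSpace {p : E n × E n | ON p} := isCompact_iff_compactSpace.1 (ON_compact n)
    obtain ⟨δ, hδ, hδ2⟩ := unif hA hB h g2 {p : E n × E n | ON p} (fun x => x.1)
      continuous_subtype_val
      (fun x => by
        have hx : ‖x.1.1‖ = 1 := x.2.1
        exact norm_ne_zero_iff.1 (by rw [hx]; exact one_ne_zero)) ε hε
    exact ⟨δ, hδ, fun s h1 h2 p hp => hδ2 s h1 h2 ⟨p, hp⟩⟩
  · have h1 : ContinuousOn (fun x : E n =>
        dt (dt (Gam e v (fun p : E n × E n => φ p.1))) (0, (x, 0)) + φ x) {0}ᶜ := by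
      refine ContinuousOn.add ?_ hφ.smooth.continuousOn
      refine s2.continuousOn.comp ?_ fun x hx => hx
      exact (continuous_const.prodMk (continuous_id.prodMk continuous_const)).continuousOn
    refine (h1.congr fun x hx => hL x hx).mono fun x hx => ?_
    have hx1 : ‖x‖ = 1 := by simpa using hx
    exact norm_ne_zero_iff.1 (by rw [hx1]; exact one_ne_zero)

end Pool.Agent.Helper3.PM
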