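import Pool.Agent.Helper62.PM.St6

/-!
# PM6, module IBS: first order integration by parts on the sphere

For `F` smooth off the origin and positively homogeneous of degree `d + 1`,
`∫_S fderiv F w a dσ(w) = (d + n) ∫_S ⟨a, w⟩ F(w) dσ(w)`.
-/

set_option autoImplicit false

open MeasureTheory Metric Set Filter Topology
open scoped RealInnerProductSpace ContDiff

namespace Pool.Agent.Helper3.PM6

open Pool.Agent.Helper62.PM6
open Pool.Agent.Helper62.Mink

/-- the radial test function -/
noncomputable def Wr {n : ℕ} (x : E n) : ℝ := 1 * bmp (‖x‖ ^ 2)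

lemma Wr_smooth {n : ℕ} : ContDiff ℝ ∞ (Wr : E n → ℝ) := by
  unfold Wr
  exact contDiff_const.mul (bmp_smooth.comp normsq_smooth)

lemma fderiv_Wr {n : ℕ} (x a : E n) :
    fderiv ℝ (Wr : E n → ℝ) x a = deriv (bmp : ℝ → ℝ) (‖x‖ ^ 2) * (2 * inner ℝ x a) := by
  refine lineD (Wr_smooth.differentiable (by simp) x) ?_
  have hb := hasDerivAt_rad_line (bmp_smooth.differentiable (by simp)) x a
  have := hb.const_mul (1 : ℝ)
  simpa [Wr] using this

/-- the derivative of a positively homogeneous function of degree `d + 1` has degree `d` -/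
lemma fderiv_homd {n : ℕ} {F : E n → ℝ} {d : ℕ}
    (hF : ∀ c : ℝ, 0 < c → ∀ x : E n, x ≠ 0 → F (c • x) = c ^ (d + 1) * F x)
    {c : ℝ} (hc : 0 < c) {x : E n} (hx : x ≠ 0) :
    fderiv ℝ F (c • x) = c ^ d • fderiv ℝ F x := by
  have h1 : fderiv ℝ (fun y => F (c • y)) x = c • fderiv ℝ F (c • x) := fderiv_comp_smul c
  have h2 : (fun y => F (c • y)) =ᶠ[𝓝 x] (c ^ (d + 1) • F) := by
    filter_upwards [(isOpen_compl_singleton (x := (0 : E n))).mem_nhds hx] with y hy
    rw [hF c hc y hy]; rfl
  rw [h2.fderiv_eq, fderiv_const_smul_field, pow_succ', mul_smul] at h1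
  exact (smul_right_injective _ hc.ne' h1).symm

theorem hIBS : StIBS := by
  intro n hn F d hC hF a
  have hK := Kr_pos (n - 1 + d)
  have hWc : HasCompactSupport (Wr : E n → ℝ) := good_compact good_bmp (fun _ => 1)
  have hW0 : tsupport (Wr : E n → ℝ) ⊆ {0}ᶜ := good_tsupport good_bmp (fun _ => 1)
  have hW := Wr_smooth (n := n)
  have hW1 : ContDiff ℝ ∞ (fun y : E n => fderiv ℝ (Wr : E n → ℝ) y a) :=
    (hW.fderiv_right (m := ∞) (by simp)).clm_apply contDiff_const
  have t1 : tsupport (fun y : E n => fderiv ℝ (Wr : E n → ℝ) y a) ⊆ tsupport (Wr : E n → ℝ) :=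
    tsupport_fderiv_apply_subset ℝ a
  have c1 : HasCompactSupport (fun y : E n => fderiv ℝ (Wr : E n → ℝ) y a) := hWc.fderiv_apply ℝ a
  have s1 := integral_mul_fderiv_eq_neg_fderiv_mul_of_integrable
    (μ := (volume : Measure (E n))) (f := F) (g := (Wr : E n → ℝ)) (v := a)
    (int_mul (fun x hx => (cda1 hC a hx).continuousAt) hW.continuous hWc hW0)
    (int_mul (fun x hx => (cda hC hx).continuousAt) hW1.continuous c1 (t1.trans hW0))
    (int_mul (fun x hx => (cda hC hx).continuousAt) hW.continuous hWc hW0)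
    (fun x hx => (cda hC (hW0 hx)).differentiableAt (by simp))
    (fun x _ => hW.differentiable (by simp) x)
  -- the left side
  have hL : ∫ x : E n, F x * fderiv ℝ (Wr : E n → ℝ) x a
      = 2 * (SI (fun x : E n => inner ℝ a x * F x)
        * (-(((n - 1 + d : ℕ) + 1 : ℝ) / 2) * Kr (n - 1 + d))) := by
    have hp := integral_polar hn (fun x : E n => inner ℝ a x * F x) (d + 2)
      (fun r => deriv (bmp : ℝ → ℝ) (r ^ 2))
      (fun c hc x hx => by
        show (inner ℝ a (c • x) : ℝ) * F (c • x) = c ^ (d + 2) * (inner ℝ a x * F x)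
        rw [hF c hc x hx, inner_smul_right]; ring)
    have hd := Kr_d (n - 1 + d)
    have e1 : n - 1 + (d + 2) = n - 1 + d + 2 := by ring
    rw [e1, hd] at hp
    rw [SI, ← hp, ← integral_const_mul]
    refine integral_congr_ae (Filter.Eventually.of_forall fun x => ?_)
    simp only [fderiv_Wr]
    rw [real_inner_comm a x]
    ring
  -- the right side
  have hR : ∫ x : E n, fderiv ℝ F x a * Wr x
      = SI (fun x : E n => fderiv ℝ F x a) * Kr (n - 1 + d) := by
    have hp := integral_polar hn (fun x : E n => fderiv ℝ F x a) d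
      (fun r => bmp (r ^ 2))
      (fun c hc x hx => by
        show fderiv ℝ F (c • x) a = c ^ d * fderiv ℝ F x a
        rw [fderiv_homd hF hc hx]; rfl)
    rw [SI, Kr, ← hp]
    refine integral_congr_ae (Filter.Eventually.of_forall fun x => ?_)
    simp only [Wr, one_mul]
  rw [hL, hR] at s1
  have hcast : ((n - 1 + d : ℕ) : ℝ) + 1 = n + d := by
    rw [Nat.cast_add, Nat.cast_sub hn]; push_cast; ring
  rw [hcast] at s1
  have key : SI (fun x : E n => fderiv ℝ F x a) * Kr (n - 1 + d)
      = ((d : ℝ) + n) * SI (fun x : E n => inner ℝ a x * F x) * Kr (n - 1 + d) := by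
    linarith
  exact mul_right_cancel₀ hK.ne' key

end Pool.Agent.Helper3.PM6
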